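import Pool.Agent.Helper54.SRD.Basic

/-!
# The segment lemma
-/

open Set Filter MeasureTheory
open scoped Manifold ContDiff Topology

noncomputable section

namespace Pool.Agent.Helper67.SRD

open Pool.Agent.Helper54.SRD

section aux

variable {E : Type*} [NormedAddCommGroup E] [NormedSpace ℝ E]
variable {F : Type*} [NormedAddCommGroup F] [NormedSpace ℝ F]

set_option maxSynthPendingDepth 3 in
theorem hasDerivAt_bil {B : ℝ → E →L[ℝ] E →L[ℝ] F} {B' : E →L[ℝ] E →L[ℝ] F}
    {u v : ℝ → E} {u' v' : E} {t : ℝ}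
    (hB : HasDerivAt B B' t) (hu : HasDerivAt u u' t) (hv : HasDerivAt v v' t) :
    HasDerivAt (fun t => B t (u t) (v t)) (B' (u t) (v t) + B t u' (v t) + B t (u t) v') t := by
  have h := (hB.clm_apply hu).clm_apply hv
  simpa using h

theorem contDiffAt_deriv {n m : WithTop ℕ∞} {f : ℝ → F} {t : ℝ} (hf : ContDiffAt ℝ n f t)
    (hmn : m + 1 ≤ n) : ContDiffAt ℝ m (deriv f) t :=
  (hf.fderiv_right hmn).clm_apply (contDiffAt_const (c := (1 : ℝ)))

theorem one_one_le : (1 : WithTop ℕ∞) + 1 ≤ ∞ := by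
  rw [one_add_one_eq_two]
  exact WithTop.coe_le_coe.2 le_top

theorem sqrt_le_half {y : ℝ} (hy : 0 ≤ y) : Real.sqrt y ≤ (1 + y) / 2 := by
  have h := Real.sq_sqrt hy
  nlinarith [sq_nonneg (Real.sqrt y - 1)]

/-- A curve which is `C^1` near a compact interval is Lipschitz there. -/
theorem lip_of_contDiffAt {c : ℝ → F} {a b : ℝ} (hc : ∀ t ∈ Icc a b, ContDiffAt ℝ 1 c t) :
    ∃ K : NNReal, LipschitzOnWith K c (Icc a b) := by
  have hcont : ContinuousOn (fun t => ‖deriv c t‖₊) (Icc a b) := by
    intro t ht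
    exact ((contDiffAt_deriv (m := 0) (hc t ht) (by norm_num)).continuousAt.nnnorm).continuousWithinAt
  obtain ⟨K, hK⟩ := (isCompact_Icc.image_of_continuousOn hcont).bddAbove
  refine ⟨K, (convex_Icc a b).lipschitzOnWith_of_nnnorm_hasDerivWithin_le
    (f' := deriv c) (fun t ht => ?_) (fun t ht => ?_)⟩
  · exact ((hc t ht).differentiableAt (by norm_num)).hasDerivAt.hasDerivWithinAt
  · exact hK ⟨t, ht, rfl⟩

end aux

variable (E : Type*) [NormedAddCommGroup E] [NormedSpace ℝ E] [FiniteDimensional ℝ E]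

set_option maxSynthPendingDepth 3 in
theorem SEG (hTAY : S_TAY E) : S_SEG E := by
  intro U G Γ β V a b p q hU hG hPD hΓ hΓs hab hpt hp hq ε hε
  have hβ2 : ∀ t ∈ Icc a b, ContDiffAt ℝ 2 β t := fun t ht => (hpt t ht).2.1.1
  have hV1 : ∀ t ∈ Icc a b, ContDiffAt ℝ 1 V t := fun t ht => (hpt t ht).2.2
  have hβU : ∀ t ∈ Icc a b, β t ∈ U := fun t ht => (hpt t ht).1
  have hGat : ∀ z ∈ U, ContDiffAt ℝ ∞ G z := fun z hz => hG.contDiffAt (hU.mem_nhds hz)
  have hΓat : ∀ z ∈ U, ContDiffAt ℝ ∞ Γ z := fun z hz => hΓ.contDiffAt (hU.mem_nhds hz)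
  set W : ℝ → E := fun t => -(Γ (β t) (V t) (V t)) with hW
  have hβd : ∀ t ∈ Icc a b, HasDerivAt β (deriv β t) t := fun t ht =>
    ((hβ2 t ht).differentiableAt (by norm_num)).hasDerivAt
  have hVd : ∀ t ∈ Icc a b, HasDerivAt V (deriv V t) t := fun t ht =>
    ((hV1 t ht).differentiableAt (by norm_num)).hasDerivAt
  have hβ1 : ∀ t ∈ Icc a b, ContDiffAt ℝ 1 (deriv β) t := fun t ht =>
    contDiffAt_deriv (hβ2 t ht) (by norm_num)
  have hΓβ1 : ∀ t ∈ Icc a b, ContDiffAt ℝ 1 (fun t => Γ (β t)) t := fun t ht =>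
    ((hΓat _ (hβU t ht)).of_le (by exact_mod_cast le_top)).comp t
      ((hβ2 t ht).of_le (by norm_num))
  have hW1 : ∀ t ∈ Icc a b, ContDiffAt ℝ 1 W t := fun t ht =>
    (((hΓβ1 t ht).clm_apply (hV1 t ht)).clm_apply (hV1 t ht)).neg
  have hWd : ∀ t ∈ Icc a b, deriv W t =
      -(fderiv ℝ Γ (β t) (deriv β t) (V t) (V t)) - (2 : ℝ) • Γ (β t) (deriv V t) (V t) := by
    intro t ht
    have h1 : HasDerivAt (fun t => Γ (β t)) (fderiv ℝ Γ (β t) (deriv β t)) t := by
      have h2 : HasFDerivAt Γ (fderiv ℝ Γ (β t)) (β t) :=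
        ((hΓat _ (hβU t ht)).differentiableAt (by simp)).hasFDerivAt
      exact h2.comp_hasDerivAt t (hβd t ht)
    have h3 := (hasDerivAt_bil h1 (hVd t ht) (hVd t ht)).neg
    have h4 : deriv W t = _ := h3.deriv
    rw [h4, hΓs (β t) (hβU t ht) (V t) (deriv V t)]
    module
  have hWd' : ∀ t ∈ Icc a b, HasDerivAt W (deriv W t) t := fun t ht =>
    ((hW1 t ht).differentiableAt (by norm_num)).hasDerivAt
  -- continuity
  have cβ : ContinuousOn β (Icc a b) := fun t ht => (hβ2 t ht).continuousAt.continuousWithinAt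
  have cV : ContinuousOn V (Icc a b) := fun t ht => (hV1 t ht).continuousAt.continuousWithinAt
  have cW : ContinuousOn W (Icc a b) := fun t ht => (hW1 t ht).continuousAt.continuousWithinAt
  have cβ' : ContinuousOn (deriv β) (Icc a b) := fun t ht =>
    (hβ1 t ht).continuousAt.continuousWithinAt
  have cV' : ContinuousOn (deriv V) (Icc a b) := fun t ht =>
    (contDiffAt_deriv (m := 0) (hV1 t ht) (by norm_num)).continuousAt.continuousWithinAt
  have cW' : ContinuousOn (deriv W) (Icc a b) := fun t ht =>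
    (contDiffAt_deriv (m := 0) (hW1 t ht) (by norm_num)).continuousAt.continuousWithinAt
  have hba : 0 < b - a := by linarith
  obtain ⟨η, hη, hT⟩ := hTAY U G β V W (deriv β) (deriv V) (deriv W) a b hU hG hPD hab.le
    cβ cV cW cβ' cV' cW' hβU (ε / (b - a)) (by positivity)
  set η' : ℝ := min η (η * (b - a) / 2) with hη'
  have hη'0 : 0 < η' := lt_min hη (by positivity)
  have hη'1 : η' ≤ η := min_le_left _ _
  have hη'2 : η' ≤ η * (b - a) / 2 := min_le_right _ _
  have hs0 : ∀ᶠ s : ℝ in 𝓝 0, |s| < η := by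
    have := Metric.ball_mem_nhds (0 : ℝ) hη
    filter_upwards [this] with s hs
    simpa [Real.dist_eq] using hs
  filter_upwards [hs0, hp.bound hη'0, hq.bound hη'0] with s hs hps hqs
  have hs2 : ‖s ^ 2‖ = s ^ 2 := by
    rw [Real.norm_eq_abs, abs_of_nonneg (sq_nonneg s)]
  rw [hs2] at hps hqs
  set ra : E := p s - (β a + s • V a + (s ^ 2 / 2) • W a) with hra
  set rb : E := q s - (β b + s • V b + (s ^ 2 / 2) • W b) with hrb
  have hran : ‖ra‖ ≤ η' * s ^ 2 := by
    have : ra = p s - (β a + s • V a - (s ^ 2 / 2) • Γ (β a) (V a) (V a)) := by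
      rw [hra, hW]; module
    rw [this]; exact hps
  have hrbn : ‖rb‖ ≤ η' * s ^ 2 := by
    have : rb = q s - (β b + s • V b - (s ^ 2 / 2) • Γ (β b) (V b) (V b)) := by
      rw [hrb, hW]; module
    rw [this]; exact hqs
  set r : ℝ → E := fun t => (1 - (t - a) / (b - a)) • ra + ((t - a) / (b - a)) • rb with hr
  set r' : E := (1 / (b - a)) • (rb - ra) with hr'
  have hrn : ∀ t ∈ Icc a b, ‖r t‖ ≤ η * s ^ 2 := by
    intro t ht
    have h0 : 0 ≤ (t - a) / (b - a) := div_nonneg (by linarith [ht.1]) hba.le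
    have h1 : (t - a) / (b - a) ≤ 1 := by
      rw [div_le_one hba]; linarith [ht.2]
    have hns : ‖(1 - (t - a) / (b - a)) • ra‖ = (1 - (t - a) / (b - a)) * ‖ra‖ := by
      rw [norm_smul, Real.norm_eq_abs, abs_of_nonneg (by linarith)]
    have hns' : ‖((t - a) / (b - a)) • rb‖ = ((t - a) / (b - a)) * ‖rb‖ := by
      rw [norm_smul, Real.norm_eq_abs, abs_of_nonneg h0]
    calc ‖r t‖ ≤ ‖(1 - (t - a) / (b - a)) • ra‖ + ‖((t - a) / (b - a)) • rb‖ := norm_add_le _ _
      _ = (1 - (t - a) / (b - a)) * ‖ra‖ + ((t - a) / (b - a)) * ‖rb‖ := by rw [hns, hns']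
      _ ≤ (1 - (t - a) / (b - a)) * (η' * s ^ 2) + ((t - a) / (b - a)) * (η' * s ^ 2) := by
          have h2 : 0 ≤ 1 - (t - a) / (b - a) := by linarith
          gcongr
      _ = η' * s ^ 2 := by ring
      _ ≤ η * s ^ 2 := by gcongr
  have hrn' : ‖r'‖ ≤ η * s ^ 2 := by
    calc ‖r'‖ = (1 / (b - a)) * ‖rb - ra‖ := by
          rw [hr', norm_smul, Real.norm_eq_abs, abs_of_nonneg (by positivity)]
      _ ≤ (1 / (b - a)) * (‖rb‖ + ‖ra‖) := by
          gcongr
          exact norm_sub_le _ _
      _ ≤ (1 / (b - a)) * (η' * s ^ 2 + η' * s ^ 2) := by gcongr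
      _ ≤ (1 / (b - a)) * ((η * (b - a) / 2) * s ^ 2 + (η * (b - a) / 2) * s ^ 2) := by gcongr
      _ = η * s ^ 2 := by field_simp; ring
  set c : ℝ → E := fun t => β t + s • V t + (s ^ 2 / 2) • W t + r t with hc
  have hrd : ∀ t, HasDerivAt r r' t := by
    intro t
    have h1 : HasDerivAt (fun t : ℝ => (t - a) / (b - a)) (1 / (b - a)) t :=
      ((hasDerivAt_id t).sub_const a).div_const (b - a)
    have h2 := ((h1.const_sub 1).smul_const ra).add (h1.smul_const rb)
    refine h2.congr_deriv ?_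
    rw [hr']; module
  have hcd : ∀ t ∈ Icc a b, HasDerivAt c
      (deriv β t + s • deriv V t + (s ^ 2 / 2) • deriv W t + r') t := fun t ht =>
    (((hβd t ht).add ((hVd t ht).const_smul s)).add ((hWd' t ht).const_smul (s ^ 2 / 2))).add
      (hrd t)
  have hc1 : ∀ t ∈ Icc a b, ContDiffAt ℝ 1 c t := by
    intro t ht
    have hr1 : ContDiffAt ℝ 1 r t := by
      have h1 : ContDiffAt ℝ 1 (fun t : ℝ => (t - a) / (b - a)) t :=
        (contDiffAt_id.sub contDiffAt_const).div_const (b - a)
      exact ((contDiffAt_const.sub h1).smul contDiffAt_const).add (h1.smul contDiffAt_const)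
    exact ((((hβ2 t ht).of_le (by norm_num)).add ((hV1 t ht).const_smul s)).add
      ((hW1 t ht).const_smul (s ^ 2 / 2))).add hr1
  obtain ⟨K, hK⟩ := lip_of_contDiffAt hc1
  have key : ∀ t ∈ Icc a b, c t ∈ U ∧ |G (c t) (deriv c t) (deriv c t) - 1
      - s * (fderiv ℝ G (β t) (V t) (deriv β t) (deriv β t) + 2 * G (β t) (deriv V t) (deriv β t))
      - s ^ 2 * qv G Γ β V t| ≤ ε / (b - a) * s ^ 2 := by
    intro t ht
    obtain ⟨h1, h2⟩ := hT s hs (r t) r' (hrn t ht) hrn' t ht
    refine ⟨h1, ?_⟩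
    rw [(hcd t ht).deriv]
    have h3 : qf G (β t) (deriv β t) (V t) (deriv V t) (W t) (deriv W t) = qv G Γ β V t := by
      unfold qv
      rw [← hWd t ht]
    rw [h3, (hpt t ht).2.1.2.1] at h2
    exact h2
  refine ⟨c, K, hK, ?_, ?_, fun t ht => (key t ht).1, ?_⟩
  · have : r a = ra := by rw [hr]; simp
    show β a + s • V a + (s ^ 2 / 2) • W a + r a = p s
    rw [this, hra]; abel
  · have : r b = rb := by
      rw [hr]
      show (1 - (b - a) / (b - a)) • ra + ((b - a) / (b - a)) • rb = rb
      rw [div_self hba.ne']; simp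
    show β b + s • V b + (s ^ 2 / 2) • W b + r b = q s
    rw [this, hrb]; abel
  -- the integral
  have cGβ : ContinuousOn (fun t => G (β t)) (Icc a b) := fun t ht =>
    ((hGat _ (hβU t ht)).continuousAt.comp (hβ2 t ht).continuousAt).continuousWithinAt
  have cdGβ : ContinuousOn (fun t => fderiv ℝ G (β t)) (Icc a b) := fun t ht => by
    have h1 : ContDiffAt ℝ 0 (fderiv ℝ G) (β t) :=
      (hGat _ (hβU t ht)).fderiv_right (by simp)
    exact (ContinuousAt.comp (g := fderiv ℝ G) (f := β) h1.continuousAt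
      (hβ2 t ht).continuousAt).continuousWithinAt
  set e1 : ℝ → ℝ := fun t => fderiv ℝ G (β t) (V t) (deriv β t) (deriv β t)
    + 2 * G (β t) (deriv V t) (deriv β t) with he1
  have ce1 : ContinuousOn e1 (Icc a b) := by
    have h1 := ((cdGβ.clm_apply cV).clm_apply cβ').clm_apply cβ'
    have h2 := (cGβ.clm_apply cV').clm_apply cβ'
    exact h1.add (continuousOn_const.mul h2)
  have cqv : ContinuousOn (qv G Γ β V) (Icc a b) := by
    have h0 : ContinuousOn (fun t => qf G (β t) (deriv β t) (V t) (deriv V t) (W t) (deriv W t))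
        (Icc a b) := by
      unfold qf
      have h1 : ContinuousOn
          (fun t => fderiv ℝ (fun y => fderiv ℝ G y (V t) (deriv β t) (deriv β t)) (β t) (V t))
          (Icc a b) := by
        have h2 : ∀ t ∈ Icc a b,
            fderiv ℝ (fun y => fderiv ℝ G y (V t) (deriv β t) (deriv β t)) (β t) (V t)
              = fderiv ℝ (fderiv ℝ G) (β t) (V t) (V t) (deriv β t) (deriv β t) := by
          intro t ht
          have h3 : DifferentiableAt ℝ (fderiv ℝ G) (β t) :=
            ((hGat _ (hβU t ht)).fderiv_right (m := 1) one_one_le).differentiableAt (by norm_num)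
          have h4 := ((h3.hasFDerivAt.clm_apply (hasFDerivAt_const (V t) (β t))).clm_apply
            (hasFDerivAt_const (deriv β t) (β t))).clm_apply
            (hasFDerivAt_const (deriv β t) (β t))
          rw [h4.fderiv]
          simp
        have h5 : ContinuousOn (fun t => fderiv ℝ (fderiv ℝ G) (β t)) (Icc a b) :=
            fun t ht => by
          have h6 : ContDiffAt ℝ 0 (fderiv ℝ (fderiv ℝ G)) (β t) :=
            ((hGat _ (hβU t ht)).fderiv_right (m := 1)
              one_one_le).fderiv_right (by norm_num)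
          exact (ContinuousAt.comp (g := fderiv ℝ (fderiv ℝ G)) (f := β) h6.continuousAt
            (hβ2 t ht).continuousAt).continuousWithinAt
        exact ((((h5.clm_apply cV).clm_apply cV).clm_apply cβ').clm_apply cβ').congr h2
      have h7 := ((cdGβ.clm_apply cV).clm_apply cV').clm_apply cβ'
      have h8 := (cGβ.clm_apply cV').clm_apply cV'
      have h9 := ((cdGβ.clm_apply cW).clm_apply cβ').clm_apply cβ'
      have h10 := (cGβ.clm_apply cW').clm_apply cβ'
      exact ((((continuousOn_const.mul h1).add (continuousOn_const.mul h7)).add h8).add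
        (continuousOn_const.mul h9)).add h10
    refine h0.congr ?_
    intro t ht
    show qv G Γ β V t = _
    unfold qv
    rw [← hWd t ht]
  have cint : ContinuousOn (fun t => nm (G (c t)) (deriv c t)) (Icc a b) := by
    have cc : ContinuousOn c (Icc a b) := fun t ht => (hc1 t ht).continuousAt.continuousWithinAt
    have cc' : ContinuousOn (deriv c) (Icc a b) := fun t ht =>
      (contDiffAt_deriv (m := 0) (hc1 t ht) (by norm_num)).continuousAt.continuousWithinAt
    have cG : ContinuousOn (fun t => G (c t)) (Icc a b) := hG.continuousOn.comp cc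
      fun t ht => (key t ht).1
    exact ((cG.clm_apply cc').clm_apply cc').sqrt
  have hle : ∀ t ∈ Icc a b, nm (G (c t)) (deriv c t) ≤
      1 + s * (e1 t / 2) + s ^ 2 / 2 * qv G Γ β V t + ε / (b - a) / 2 * s ^ 2 := by
    intro t ht
    obtain ⟨h1, h2⟩ := key t ht
    have h3 : 0 ≤ G (c t) (deriv c t) (deriv c t) := by
      by_cases h : deriv c t = 0
      · rw [h]; simp
      · exact ((hPD _ h1).2 _ h).le
    have h4 := sqrt_le_half h3
    have h5 := (abs_le.1 h2).2
    unfold nm
    have h6 : e1 t = fderiv ℝ G (β t) (V t) (deriv β t) (deriv β t)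
      + 2 * G (β t) (deriv V t) (deriv β t) := rfl
    rw [← h6] at h5
    linarith
  have hu : uIcc a b = Icc a b := uIcc_of_le hab.le
  have I1 : IntervalIntegrable (fun t => e1 t / 2) volume a b :=
    (ContinuousOn.div_const (hu ▸ ce1) 2).intervalIntegrable
  have I2 : IntervalIntegrable (qv G Γ β V) volume a b :=
    ContinuousOn.intervalIntegrable (hu ▸ cqv)
  have I3 : IntervalIntegrable (fun t => nm (G (c t)) (deriv c t)) volume a b :=
    ContinuousOn.intervalIntegrable (hu ▸ cint)
  have hftc : ∫ t in a..b, e1 t / 2 =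
      G (β b) (V b) (deriv β b) - G (β a) (V a) (deriv β a) := by
    refine intervalIntegral.integral_eq_sub_of_hasDerivAt
      (f := fun t => G (β t) (V t) (deriv β t)) (fun t ht => ?_) I1
    rw [hu] at ht
    have hz := hβU t ht
    have h1 : HasDerivAt (fun t => G (β t)) (fderiv ℝ G (β t) (deriv β t)) t := by
      have h2 : HasFDerivAt G (fderiv ℝ G (β t)) (β t) :=
        ((hGat _ hz).differentiableAt (by simp)).hasFDerivAt
      exact h2.comp_hasDerivAt t (hβd t ht)
    have h2 : HasDerivAt (deriv β) (deriv (deriv β) t) t :=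
      ((hβ1 t ht).differentiableAt (by norm_num)).hasDerivAt
    have h3 := hasDerivAt_bil h1 (hVd t ht) h2
    refine h3.congr_deriv ?_
    have h4 := (hpt t ht).2.1.2.2 (V t)
    have h5 : G (β t) (V t) (deriv (deriv β) t) = G (β t) (deriv (deriv β) t) (V t) :=
      (hPD _ hz).1 _ _
    -- symmetry of the derivative
    have h6 : fderiv ℝ G (β t) (deriv β t) (V t) (deriv β t)
        = fderiv ℝ G (β t) (deriv β t) (deriv β t) (V t) := by
      have h7 : HasFDerivAt G (fderiv ℝ G (β t)) (β t) :=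
        ((hGat _ hz).differentiableAt (by simp)).hasFDerivAt
      have h8 := (h7.clm_apply (hasFDerivAt_const (V t) (β t))).clm_apply
        (hasFDerivAt_const (deriv β t) (β t))
      have h9 := (h7.clm_apply (hasFDerivAt_const (deriv β t) (β t))).clm_apply
        (hasFDerivAt_const (V t) (β t))
      have h10 : (fun y => G y (V t) (deriv β t)) =ᶠ[𝓝 (β t)] fun y => G y (deriv β t) (V t) := by
        filter_upwards [hU.mem_nhds hz] with y hy
        exact (hPD y hy).1 _ _
      have h11 := (h9.congr_of_eventuallyEq h10).unique h8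
      have h12 := congrArg (fun L : E →L[ℝ] ℝ => L (deriv β t)) h11
      simpa using h12.symm
    show _ = e1 t / 2
    rw [he1]
    simp only
    rw [h5, h6]
    linarith
  calc ∫ t in a..b, nm (G (c t)) (deriv c t)
      ≤ ∫ t in a..b, (1 + s * (e1 t / 2) + s ^ 2 / 2 * qv G Γ β V t
          + ε / (b - a) / 2 * s ^ 2) := by
        refine intervalIntegral.integral_mono_on hab.le I3 ?_ hle
        exact (((intervalIntegrable_const).add (I1.const_mul s)).add
          (I2.const_mul (s ^ 2 / 2))).add intervalIntegrable_const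
    _ = (b - a) + s * (∫ t in a..b, e1 t / 2) + s ^ 2 / 2 * (∫ t in a..b, qv G Γ β V t)
          + (b - a) * (ε / (b - a) / 2 * s ^ 2) := by
        rw [intervalIntegral.integral_add
            (((intervalIntegrable_const).add (I1.const_mul s)).add (I2.const_mul (s ^ 2 / 2)))
            intervalIntegrable_const,
          intervalIntegral.integral_add ((intervalIntegrable_const).add (I1.const_mul s))
            (I2.const_mul (s ^ 2 / 2)),
          intervalIntegral.integral_add intervalIntegrable_const (I1.const_mul s),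
          intervalIntegral.integral_const_mul, intervalIntegral.integral_const_mul]
        simp
        ring
    _ ≤ _ := by
        rw [hftc]
        have h1 : (b - a) * (ε / (b - a) / 2 * s ^ 2) = ε / 2 * s ^ 2 := by
          field_simp
        rw [h1]
        have h2 : ε / 2 * s ^ 2 ≤ ε * s ^ 2 := by
          have := sq_nonneg s
          nlinarith
        linarith

end Pool.Agent.Helper67.SRD
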