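import Pool.Agent.Helper54.SRD.Basic

/-!
# The second variation inequality along a time minimising curve
-/

open Set Filter MeasureTheory
open scoped Manifold ContDiff Topology

noncomputable section

namespace Pool.Agent.Helper67.SRD

open Pool.Agent.Helper54.SRD

section vec

variable {E : Type*} [NormedAddCommGroup E] [NormedSpace ℝ E]
variable {F : Type*} [NormedAddCommGroup F] [NormedSpace ℝ F]

theorem contDiffAt_deriv' {n m : WithTop ℕ∞} {f : ℝ → F} {t : ℝ} (hf : ContDiffAt ℝ n f t)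
    (hmn : m + 1 ≤ n) : ContDiffAt ℝ m (deriv f) t :=
  (hf.fderiv_right hmn).clm_apply (contDiffAt_const (c := (1 : ℝ)))

theorem one_one_le' : (1 : WithTop ℕ∞) + 1 ≤ ∞ := by
  rw [one_add_one_eq_two]
  exact WithTop.coe_le_coe.2 le_top

set_option maxSynthPendingDepth 3 in
/-- The second variation integrand is continuous. -/
theorem continuousOn_qv {U : Set E} {G : E → Bil E} {Γ : E → BilE E} {β V : ℝ → E} {a b : ℝ}
    (hU : IsOpen U) (hG : ContDiffOn ℝ ∞ G U) (hΓ : ContDiffOn ℝ ∞ Γ U)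
    (hβU : ∀ t ∈ Icc a b, β t ∈ U) (hβ2 : ∀ t ∈ Icc a b, ContDiffAt ℝ 2 β t)
    (hV1 : ∀ t ∈ Icc a b, ContDiffAt ℝ 1 V t) : ContinuousOn (qv G Γ β V) (Icc a b) := by
  have hGat : ∀ z ∈ U, ContDiffAt ℝ ∞ G z := fun z hz => hG.contDiffAt (hU.mem_nhds hz)
  have hΓat : ∀ z ∈ U, ContDiffAt ℝ ∞ Γ z := fun z hz => hΓ.contDiffAt (hU.mem_nhds hz)
  have cβ : ContinuousOn β (Icc a b) := fun t ht => (hβ2 t ht).continuousAt.continuousWithinAt
  have cV : ContinuousOn V (Icc a b) := fun t ht => (hV1 t ht).continuousAt.continuousWithinAt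
  have cβ' : ContinuousOn (deriv β) (Icc a b) := fun t ht =>
    (contDiffAt_deriv' (m := 1) (hβ2 t ht) (by norm_num)).continuousAt.continuousWithinAt
  have cV' : ContinuousOn (deriv V) (Icc a b) := fun t ht =>
    (contDiffAt_deriv' (m := 0) (hV1 t ht) (by norm_num)).continuousAt.continuousWithinAt
  have cGβ : ContinuousOn (fun t => G (β t)) (Icc a b) := fun t ht =>
    ((hGat _ (hβU t ht)).continuousAt.comp (hβ2 t ht).continuousAt).continuousWithinAt
  have cΓβ : ContinuousOn (fun t => Γ (β t)) (Icc a b) := fun t ht =>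
    ((hΓat _ (hβU t ht)).continuousAt.comp (hβ2 t ht).continuousAt).continuousWithinAt
  have cdGβ : ContinuousOn (fun t => fderiv ℝ G (β t)) (Icc a b) := fun t ht => by
    have h1 : ContDiffAt ℝ 0 (fderiv ℝ G) (β t) :=
      (hGat _ (hβU t ht)).fderiv_right (by simp)
    exact (ContinuousAt.comp (g := fderiv ℝ G) (f := β) h1.continuousAt
      (hβ2 t ht).continuousAt).continuousWithinAt
  have cdΓβ : ContinuousOn (fun t => fderiv ℝ Γ (β t)) (Icc a b) := fun t ht => by
    have h1 : ContDiffAt ℝ 0 (fderiv ℝ Γ) (β t) :=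
      (hΓat _ (hβU t ht)).fderiv_right (by simp)
    exact (ContinuousAt.comp (g := fderiv ℝ Γ) (f := β) h1.continuousAt
      (hβ2 t ht).continuousAt).continuousWithinAt
  have cW : ContinuousOn (fun t => -(Γ (β t) (V t) (V t))) (Icc a b) :=
    ((cΓβ.clm_apply cV).clm_apply cV).neg
  have cW' : ContinuousOn (fun t => -(fderiv ℝ Γ (β t) (deriv β t) (V t) (V t))
      - (2 : ℝ) • Γ (β t) (deriv V t) (V t)) (Icc a b) :=
    ((((cdΓβ.clm_apply cβ').clm_apply cV).clm_apply cV).neg).sub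
      (((cΓβ.clm_apply cV').clm_apply cV).const_smul (2 : ℝ))
  have h1 : ContinuousOn
      (fun t => fderiv ℝ (fun y => fderiv ℝ G y (V t) (deriv β t) (deriv β t)) (β t) (V t))
      (Icc a b) := by
    have h2 : ∀ t ∈ Icc a b,
        fderiv ℝ (fun y => fderiv ℝ G y (V t) (deriv β t) (deriv β t)) (β t) (V t)
          = fderiv ℝ (fderiv ℝ G) (β t) (V t) (V t) (deriv β t) (deriv β t) := by
      intro t ht
      have h3 : DifferentiableAt ℝ (fderiv ℝ G) (β t) :=
        ((hGat _ (hβU t ht)).fderiv_right (m := 1) one_one_le').differentiableAt (by norm_num)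
      have h4 := ((h3.hasFDerivAt.clm_apply (hasFDerivAt_const (V t) (β t))).clm_apply
        (hasFDerivAt_const (deriv β t) (β t))).clm_apply
        (hasFDerivAt_const (deriv β t) (β t))
      rw [h4.fderiv]
      simp
    have h5 : ContinuousOn (fun t => fderiv ℝ (fderiv ℝ G) (β t)) (Icc a b) :=
        fun t ht => by
      have h6 : ContDiffAt ℝ 0 (fderiv ℝ (fderiv ℝ G)) (β t) :=
        ((hGat _ (hβU t ht)).fderiv_right (m := 1)
          one_one_le').fderiv_right (by norm_num)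
      exact (ContinuousAt.comp (g := fderiv ℝ (fderiv ℝ G)) (f := β) h6.continuousAt
        (hβ2 t ht).continuousAt).continuousWithinAt
    exact ((((h5.clm_apply cV).clm_apply cV).clm_apply cβ').clm_apply cβ').congr h2
  have h7 := ((cdGβ.clm_apply cV).clm_apply cV').clm_apply cβ'
  have h8 := (cGβ.clm_apply cV').clm_apply cV'
  have h9 := ((cdGβ.clm_apply cW).clm_apply cβ').clm_apply cβ'
  have h10 := (cGβ.clm_apply cW').clm_apply cβ'
  exact ((((continuousOn_const.mul h1).add (continuousOn_const.mul h7)).add h8).add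
    (continuousOn_const.mul h9)).add h10

end vec

section man

variable {E : Type*} [NormedAddCommGroup E] [NormedSpace ℝ E]
variable {M : Type*} [TopologicalSpace M] [ChartedSpace E M]

/-- The 2-jet of the variation, in the chart at `x`. -/
def jet (C : AConn E M) (γ : ℝ → M) (V : M → ℝ → E) (x : M) (t s : ℝ) : E :=
  ch x (γ t) + s • V x t - (s ^ 2 / 2) • C.Γ x (ch x (γ t)) (V x t) (V x t)

theorem continuous_jet (C : AConn E M) (γ : ℝ → M) (V : M → ℝ → E) (x : M) (t : ℝ) :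
    Continuous (jet C γ V x t) := by
  unfold jet
  fun_prop

theorem jet_zero (C : AConn E M) (γ : ℝ → M) (V : M → ℝ → E) (x : M) (t : ℝ) :
    jet C γ V x t 0 = ch x (γ t) := by
  simp [jet]

/-- The velocity pairing, in the chart at `x`. -/
def pr (G : AMetric E M) (γ : ℝ → M) (V : M → ℝ → E) (x : M) (t : ℝ) : ℝ :=
  G.G x (ch x (γ t)) (V x t) (deriv (fun t => (ch x (γ t) : E)) t)

variable [IsManifold 𝓘(ℝ, E) ∞ M]

theorem pr_chart (G : AMetric E M) {γ : ℝ → M} {V : M → ℝ → E} {t : ℝ} {x y : M}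
    (hc : ContinuousAt γ t) (hx : γ t ∈ src E x) (hy : γ t ∈ src E y)
    (hd : DifferentiableAt ℝ (fun t => (ch x (γ t) : E)) t)
    (hV : V y t = fderiv ℝ (tr x y) (ch x (γ t)) (V x t)) :
    pr G γ V x t = pr G γ V y t := by
  have hov : (ch x (γ t) : E) ∈ ov x y := mem_ov hx hy
  have h1 : HasDerivAt (fun t => (ch y (γ t) : E))
      (fderiv ℝ (tr x y) (ch x (γ t)) (deriv (fun t => (ch x (γ t) : E)) t)) t := by
    have h0 : HasFDerivAt (tr x y : E → E) (fderiv ℝ (tr x y) (ch x (γ t)))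
        ((fun t => (ch x (γ t) : E)) t) := (differentiableAt_tr hov).hasFDerivAt
    have h2 := h0.comp_hasDerivAt t hd.hasDerivAt
    refine h2.congr_of_eventuallyEq ?_
    filter_upwards [hc.preimage_mem_nhds ((isOpen_src (E := E) x).mem_nhds hx)] with t' ht'
    exact (tr_ch ht').symm
  unfold pr
  rw [h1.deriv, G.trans x y _ hov, tr_ch hx, ← hV]

theorem eventually_jet_mem (C : AConn E M) {γ : ℝ → M} {V : M → ℝ → E} {t : ℝ} {x y : M}
    (hx : γ t ∈ src E x) (hy : γ t ∈ src E y) :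
    ∀ᶠ s in 𝓝 (0 : ℝ), jet C γ V x t s ∈ (ov x y : Set E) := by
  have h1 : (ov x y : Set E) ∈ 𝓝 (jet C γ V x t 0) := by
    rw [jet_zero]
    exact (isOpen_ov x y).mem_nhds (mem_ov hx hy)
  exact (continuous_jet C γ V x t).continuousAt.eventually h1

theorem jet_chart (hJET : S_JET E M) (C : AConn E M) {γ : ℝ → M} {V : M → ℝ → E} {t : ℝ}
    {x y : M} (hx : γ t ∈ src E x) (hy : γ t ∈ src E y)
    (hV : V y t = fderiv ℝ (tr x y) (ch x (γ t)) (V x t)) :
    (fun s => tr x y (jet C γ V x t s) - jet C γ V y t s) =o[𝓝 0] fun s : ℝ => s ^ 2 := by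
  have h1 := hJET C x y (ch x (γ t)) (V x t) (jet C γ V x t) (mem_ov hx hy) (by
    have h2 : (fun s => jet C γ V x t s - (ch x (γ t) + s • V x t
        - (s ^ 2 / 2) • C.Γ x (ch x (γ t)) (V x t) (V x t))) = fun _ => (0 : E) := by
      funext s
      simp [jet]
    rw [h2]
    exact Asymptotics.isLittleO_zero _ _)
  rw [← hV, tr_ch hx] at h1
  exact h1

variable [FiniteDimensional ℝ E]

theorem seg_tau (hSEG : S_SEG E) (hJET : S_JET E M) (hPTW : S_PTW E M)
    [CompactSpace M] [T2Space M] [ConnectedSpace M] (G : AMetric E M) (C : AConn E M)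
    {γ : ℝ → M} {V : M → ℝ → E} {u w : ℝ} (huw : u < w) (x : M)
    (hgeo : ∀ t ∈ Icc u w, IsGeo G γ t) (hsrc : ∀ t ∈ Icc u w, γ t ∈ src E x)
    (hV1 : ∀ t ∈ Icc u w, ∀ x : M, γ t ∈ src E x → ContDiffAt ℝ 1 (V x) t)
    (hVt : ∀ t ∈ Icc u w, ∀ x y : M, γ t ∈ src E x → γ t ∈ src E y →
      V y t = fderiv ℝ (tr x y) (ch x (γ t)) (V x t))
    {y z : M} (hy : γ u ∈ src E y) (hz : γ w ∈ src E z) {ε : ℝ} (hε : 0 < ε) :
    ∀ᶠ s in 𝓝 (0 : ℝ), tau G (chi y (jet C γ V y u s)) (chi z (jet C γ V z w s)) ≤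
      (w - u) + s * (pr G γ V x w - pr G γ V x u) +
        (s ^ 2 / 2) * (∫ t in u..w, qv (G.G x) (C.Γ x) (fun t => (ch x (γ t) : E)) (V x) t)
        + ε * s ^ 2 := by
  have hu : u ∈ Icc u w := ⟨le_rfl, huw.le⟩
  have hw : w ∈ Icc u w := ⟨huw.le, le_rfl⟩
  have h1 := hSEG (tgt E x) (G.G x) (C.Γ x) (fun t => (ch x (γ t) : E)) (V x) u w
    (fun s => tr y x (jet C γ V y u s)) (fun s => tr z x (jet C γ V z w s))
    (isOpen_tgt x) (G.smooth x) (fun ζ hζ => ⟨G.symm x ζ hζ, G.pos x ζ hζ⟩) (C.smooth x)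
    (C.symm x) huw
    (fun t ht => ⟨ch_mem (hsrc t ht), (hgeo t ht).2 x (hsrc t ht), hV1 t ht x (hsrc t ht)⟩)
    (jet_chart hJET C hy (hsrc u hu) (hVt u hu y x hy (hsrc u hu)))
    (jet_chart hJET C hz (hsrc w hw) (hVt w hw z x hz (hsrc w hw))) ε hε
  filter_upwards [h1, eventually_jet_mem C (V := V) hy (hsrc u hu),
    eventually_jet_mem C (V := V) hz (hsrc w hw)] with s hs hs1 hs2
  obtain ⟨c, K, hK, hcu, hcw, hcU, hint⟩ := hs
  have h2 := (hPTW inferInstance inferInstance inferInstance G x c u w K huw.le hK hcU).2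
  rw [hcu, hcw, chi_tr hs1, chi_tr hs2] at h2
  exact h2.trans hint

/-- The relation proved along the curve. -/
def Rel (G : AMetric E M) (C : AConn E M) (γ : ℝ → M) {n : ℕ} (V : Fin n → M → ℝ → E)
    (S : ℝ → ℝ) (u w : ℝ) : Prop :=
  ∃ I : Fin n → ℝ, ∑ j, I j ≤ ∫ t in u..w, S t ∧ ∀ j, ∀ y z : M, γ u ∈ src E y →
    γ w ∈ src E z → ∀ ε > 0, ∀ᶠ s in 𝓝 (0 : ℝ),
      tau G (chi y (jet C γ (V j) y u s)) (chi z (jet C γ (V j) z w s)) ≤
        (w - u) + s * (pr G γ (V j) (γ w) w - pr G γ (V j) (γ u) u) + (s ^ 2 / 2) * I j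
          + ε * s ^ 2

omit [FiniteDimensional ℝ E] in
theorem Rel.trans' {G : AMetric E M} {C : AConn E M} {γ : ℝ → M} {n : ℕ}
    {V : Fin n → M → ℝ → E} {S : ℝ → ℝ} {u w v : ℝ}
    (htri : ∀ x y z : M, tau G x z ≤ tau G x y + tau G y z)
    (h1 : Rel G C γ V S u w) (h2 : Rel G C γ V S w v)
    (i1 : IntervalIntegrable S volume u w) (i2 : IntervalIntegrable S volume w v) :
    Rel G C γ V S u v := by
  obtain ⟨I, hI, hI'⟩ := h1
  obtain ⟨J, hJ, hJ'⟩ := h2
  refine ⟨fun j => I j + J j, ?_, ?_⟩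
  · rw [Finset.sum_add_distrib, ← intervalIntegral.integral_add_adjacent_intervals i1 i2]
    exact add_le_add hI hJ
  · intro j y z hy hz ε hε
    filter_upwards [hI' j y (γ w) hy (mem_src _) (ε / 2) (by positivity),
      hJ' j (γ w) z (mem_src _) hz (ε / 2) (by positivity)] with s hs1 hs2
    refine (htri _ (chi (γ w) (jet C γ (V j) (γ w) w s)) _).trans ?_
    refine (add_le_add hs1 hs2).trans (le_of_eq ?_)
    ring

end man

variable (E : Type*) [NormedAddCommGroup E] [NormedSpace ℝ E] [FiniteDimensional ℝ E]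
variable (M : Type*) [TopologicalSpace M] [ChartedSpace E M] [IsManifold 𝓘(ℝ, E) ∞ M]

theorem INDEX (hSEG : S_SEG E) (hJET : S_JET E M) (hPTW : S_PTW E M) (hMIN : S_MIN E M) :
    S_INDEX E M := by
  intro i1 i2 i3 G C γ a b n V S hab hgeo htau hV1 hVt hVa hVb hS hloc
  obtain ⟨-, -, htri, -⟩ := hMIN i1 i2 i3 G
  -- the local statement
  have hloc' : ∀ t : Icc a b, ∃ N : Set ℝ, IsOpen N ∧ (t : ℝ) ∈ N ∧ ∃ x : M,
      ∀ t' ∈ N, γ t' ∈ src E x ∧ (t' ∈ Icc a b →
        ∑ j, qv (G.G x) (C.Γ x) (fun t => (ch x (γ t) : E)) (V j x) t' ≤ S t') := by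
    rintro ⟨t, ht⟩
    obtain ⟨x, hx, hx'⟩ := hloc t ht
    have h1 : ∀ᶠ t' in 𝓝 t, γ t' ∈ src E x :=
      (hgeo t ht).1.eventually ((isOpen_src (E := E) x).mem_nhds hx)
    obtain ⟨N, hN, hNo, htN⟩ := eventually_nhds_iff.1 (h1.and hx')
    exact ⟨N, hNo, htN, x, hN⟩
  choose N hNo htN x hx using hloc'
  obtain ⟨δ, hδ, hδ'⟩ := lebesgue_number_lemma_of_metric (s := Icc a b) (c := N)
    isCompact_Icc hNo (fun t ht => mem_iUnion.2 ⟨⟨t, ht⟩, htN ⟨t, ht⟩⟩)
  -- integrability of `S`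
  have hSi : ∀ u w, u ∈ Icc a b → w ∈ Icc a b → u ≤ w → IntervalIntegrable S volume u w := by
    intro u w hu hw huw
    apply ContinuousOn.intervalIntegrable
    rw [uIcc_of_le huw]
    exact hS.mono (Icc_subset_Icc hu.1 hw.2)
  have hshort : ∀ u w, u ∈ Icc a b → w ∈ Icc a b → u < w → w < u + δ →
      Rel G C γ V S u w := by
    intro u w hu hw huw hwδ
    obtain ⟨i, hi⟩ := hδ' u hu
    have hsub : Icc u w ⊆ Icc a b := Icc_subset_Icc hu.1 hw.2
    have hNi : ∀ t ∈ Icc u w, t ∈ N i := by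
      intro t ht
      apply hi
      rw [Metric.mem_ball, Real.dist_eq, abs_of_nonneg (by linarith [ht.1])]
      linarith [ht.2]
    have hsrc : ∀ t ∈ Icc u w, γ t ∈ src E (x i) := fun t ht => (hx i t (hNi t ht)).1
    have hint : ∀ j, IntervalIntegrable
        (qv (G.G (x i)) (C.Γ (x i)) (fun t => (ch (x i) (γ t) : E)) (V j (x i))) volume u w := by
      intro j
      apply ContinuousOn.intervalIntegrable
      rw [uIcc_of_le huw.le]
      exact continuousOn_qv (isOpen_tgt (x i)) (G.smooth _) (C.smooth _)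
        (fun t ht => ch_mem (hsrc t ht))
        (fun t ht => ((hgeo t (hsub ht)).2 _ (hsrc t ht)).1)
        (fun t ht => hV1 j t (hsub ht) _ (hsrc t ht))
    refine ⟨fun j => ∫ t in u..w, qv (G.G (x i)) (C.Γ (x i))
      (fun t => (ch (x i) (γ t) : E)) (V j (x i)) t, ?_, ?_⟩
    · rw [← intervalIntegral.integral_finsetSum (fun j _ => hint j)]
      refine intervalIntegral.integral_mono_on huw.le ?_ (hSi u w hu hw huw.le) ?_
      · have h2 := IntervalIntegrable.sum Finset.univ (fun j _ => hint j)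
        refine h2.congr ?_
        exact fun t _ => Finset.sum_apply _ _ _
      · intro t ht
        exact (hx i t (hNi t ht)).2 (hsub ht)
    · intro j y z hy hz ε hε
      have h1 := seg_tau hSEG hJET hPTW G C (V := V j) huw (x i)
        (fun t ht => hgeo t (hsub ht)) hsrc (fun t ht => hV1 j t (hsub ht))
        (fun t ht => hVt j t (hsub ht)) hy hz hε
      have hpr : ∀ t ∈ Icc u w, pr G γ (V j) (x i) t = pr G γ (V j) (γ t) t := by
        intro t ht
        exact pr_chart G (hgeo t (hsub ht)).1 (hsrc t ht) (mem_src _)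
          (((hgeo t (hsub ht)).2 _ (hsrc t ht)).1.differentiableAt (by norm_num))
          (hVt j t (hsub ht) _ _ (hsrc t ht) (mem_src _))
      rw [hpr u ⟨le_rfl, huw.le⟩, hpr w ⟨huw.le, le_rfl⟩] at h1
      exact h1
  -- chaining
  have hab' : 0 < b - a := by linarith
  obtain ⟨m, hm⟩ := exists_nat_gt ((b - a) / δ)
  have hm0 : 0 < (m : ℝ) := lt_of_le_of_lt (by positivity) hm
  have hstep : (b - a) / m < δ := by
    rw [div_lt_iff₀ hm0]
    rw [div_lt_iff₀ hδ] at hm
    linarith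
  have hstep0 : 0 < (b - a) / m := div_pos hab' hm0
  have hmem : ∀ k : ℕ, k ≤ m → a + k * ((b - a) / m) ∈ Icc a b := by
    intro k hk
    have hk' : (k : ℝ) ≤ m := by exact_mod_cast hk
    refine ⟨by have : 0 ≤ (k : ℝ) * ((b - a) / m) := by positivity
               linarith, ?_⟩
    have h1 : (k : ℝ) * ((b - a) / m) ≤ m * ((b - a) / m) :=
      mul_le_mul_of_nonneg_right hk' hstep0.le
    have h2 : (m : ℝ) * ((b - a) / m) = b - a := by field_simp
    linarith
  have hchain : ∀ k : ℕ, k + 1 ≤ m → Rel G C γ V S a (a + (k + 1 : ℕ) * ((b - a) / m)) := by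
    intro k
    induction k with
    | zero =>
      intro hk
      have h1 := hmem 1 hk
      apply hshort a _ ⟨le_rfl, hab.le⟩ h1
      · simp only [Nat.cast_one, one_mul]; linarith
      · simp only [Nat.cast_one, one_mul]; linarith
    | succ k ih =>
      intro hk
      have h1 := ih (by omega)
      have m1 := hmem (k + 1) (by omega)
      have m2 := hmem (k + 1 + 1) hk
      have e1 : a + ((k + 1 + 1 : ℕ) : ℝ) * ((b - a) / m) =
          a + ((k + 1 : ℕ) : ℝ) * ((b - a) / m) + (b - a) / m := by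
        push_cast
        ring
      refine h1.trans' htri (hshort _ _ m1 m2 (by rw [e1]; linarith) (by rw [e1]; linarith))
        (hSi _ _ ⟨le_rfl, hab.le⟩ m1 m1.1) (hSi _ _ m1 m2 (by rw [e1]; linarith))
  have hRel : Rel G C γ V S a b := by
    have hm1 : 1 ≤ m := by
      by_contra hcon
      have : m = 0 := by omega
      rw [this] at hm0
      simp at hm0
    have h1 := hchain (m - 1) (by omega)
    have h2 : m - 1 + 1 = m := by omega
    rw [h2] at h1
    have h3 : a + (m : ℝ) * ((b - a) / m) = b := by field_simp; ring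
    rw [h3] at h1
    exact h1
  obtain ⟨I, hI, hI'⟩ := hRel
  refine le_trans (Finset.sum_nonneg fun j _ => ?_) hI
  -- `I j ≥ 0`
  have hja : ∀ s, chi (γ a) (jet C γ (V j) (γ a) a s) = γ a := by
    intro s
    unfold jet
    rw [hVa j (γ a) (mem_src _)]
    simp only [smul_zero, map_zero, add_zero, sub_zero]
    exact chi_ch (mem_src _)
  have hjb : ∀ s, chi (γ b) (jet C γ (V j) (γ b) b s) = γ b := by
    intro s
    unfold jet
    rw [hVb j (γ b) (mem_src _)]
    simp only [smul_zero, map_zero, add_zero, sub_zero]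
    exact chi_ch (mem_src _)
  have hpa : pr G γ (V j) (γ a) a = 0 := by
    unfold pr
    rw [hVa j (γ a) (mem_src _)]
    simp
  have hpb : pr G γ (V j) (γ b) b = 0 := by
    unfold pr
    rw [hVb j (γ b) (mem_src _)]
    simp
  by_contra hneg
  push Not at hneg
  have h1 := hI' j (γ a) (γ b) (mem_src _) (mem_src _) (-(I j) / 4) (by linarith)
  rw [hpa, hpb] at h1
  simp only [hja, hjb] at h1
  obtain ⟨s, hs, hs0⟩ := ((h1.filter_mono nhdsWithin_le_nhds).and
    (self_mem_nhdsWithin : {(0 : ℝ)}ᶜ ∈ 𝓝[≠] (0 : ℝ))).exists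
  have hs0' : 0 < s ^ 2 := by
    have : s ≠ 0 := hs0
    positivity
  nlinarith

end Pool.Agent.Helper67.SRD
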